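import Pool.Agent.N325.DD.LB

/-!
# Entries of the table (subtask DD2/A)
-/

set_option autoImplicit false

namespace Pool.Agent.N152.DD

open Finset
open Pool.Agent.N325.DD

theorem mem'_iff (x : ℕ) (l : List ℕ) : mem' x l = true ↔ x ∈ l := by
  induction l with
  | nil => simp [mem']
  | cons a l ih =>
    rw [mem', Bool.or_eq_true, ih, List.mem_cons, Nat.beq_eq]
    constructor
    · rintro (h | h)
      · exact Or.inl h.symm
      · exact Or.inr h
    · rintro (h | h)
      · exact Or.inl h.symm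
      · exact Or.inr h

theorem inc'_spec (l : List ℕ) : ∀ a : ℕ, inc' a l = true → (∀ e ∈ l, a < e) ∧ l.Nodup := by
  induction l with
  | nil => intro a _; simp
  | cons b l ih =>
    intro a h
    rw [inc', Bool.and_eq_true, Nat.blt_eq] at h
    obtain ⟨h1, h2⟩ := ih b h.2
    refine ⟨?_, ?_⟩
    · intro e he
      rcases List.mem_cons.1 he with rfl | he
      · exact h.1
      · exact h.1.trans (h1 e he)
    · rw [List.nodup_cons]
      exact ⟨fun hb => lt_irrefl _ (h1 b hb), h2⟩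

theorem cnt_succ_le (t : Ent) (e k : ℕ) : cnt t e k ≤ cnt t e (k + 1) := by
  rw [cnt]
  cases pm t ((k + 2) * e) <;> simp

theorem cnt_one (t : Ent) (e j : ℕ) (hj : 2 ≤ j) (h : pm t (j * e) = true) :
    ∀ k : ℕ, j ≤ k + 1 → 1 ≤ cnt t e k := by
  intro k
  induction k with
  | zero => intro hk; omega
  | succ k ih =>
    intro hk
    rcases Nat.lt_or_ge (k + 1) j with h1 | h1
    · have : j = k + 2 := by omega
      subst this
      rw [cnt, h]
      simp
    · exact (ih h1).trans (cnt_succ_le t e k)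

theorem cnt_two (t : Ent) (e j j' : ℕ) (hj : 2 ≤ j) (hjj : j < j') (h : pm t (j * e) = true)
    (h' : pm t (j' * e) = true) : ∀ k : ℕ, j' ≤ k + 1 → 2 ≤ cnt t e k := by
  intro k
  induction k with
  | zero => intro hk; omega
  | succ k ih =>
    intro hk
    rcases Nat.lt_or_ge (k + 1) j' with h1 | h1
    · have : j' = k + 2 := by omega
      subst this
      have h2 := cnt_one t e j hj h k (by omega)
      rw [cnt, h']
      simpa using h2
    · exact (ih h1).trans (cnt_succ_le t e k)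

theorem chkL_spec (K N : ℕ) (t : Ent) (l : List ℕ) (h : chkL K N t l = true) :
    ∀ e ∈ l, chkE K N t e = true := by
  induction l with
  | nil => simp
  | cons a l ih =>
    rw [chkL, Bool.and_eq_true] at h
    intro e he
    rcases List.mem_cons.1 he with rfl | he
    · exact h.1
    · exact ih h.2 e he

theorem chkE_spec (K N : ℕ) (t : Ent) (e : ℕ) (h : chkE K N t e = true) :
    N % e = 0 ∧ 3 * e ≤ t.1 ∧ t.2.1 ≤ K * e ∧ cnt t e (K - 2) ≤ 1 := by
  rw [chkE, Bool.and_eq_true, Bool.and_eq_true, Bool.and_eq_true, Nat.beq_eq, Nat.ble_eq,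
    Nat.ble_eq, Nat.ble_eq] at h
  exact ⟨h.1, h.2.1, h.2.2.1, h.2.2.2⟩

theorem base_ok (K n q : ℕ) (hK : 3 ≤ K) (hqn : q ≤ n) : bq K n q ≤ g K n q := by
  classical
  have _ := hqn
  unfold bq g
  apply card_le_mx
  · intro a ha b hb c hc hab hac hbc hdiv
    simp only [Finset.mem_filter] at ha hb hc
    obtain ⟨⟨j, rfl⟩, ⟨j', rfl⟩⟩ := hdiv
    have ha0 : 0 < a := by
      have := (mem_W.1 ha.1).1.1
      omega
    have key : ∀ i : ℕ, a ≠ a * i → 0 < a * i → a * i ≤ q → i = 2 := by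
      intro i h1 h2 h3
      have hi0 : i ≠ 0 := by rintro rfl; simp at h2
      have hi1 : i ≠ 1 := by rintro rfl; simp at h1
      have hi3 : i < 3 := by
        by_contra hi
        have : a * 3 ≤ a * i := Nat.mul_le_mul_left a (by omega)
        omega
      omega
    have hj := key j hab (mem_W.1 hb.1).1.1 hb.2.1
    have hj' := key j' hac (mem_W.1 hc.1).1.1 hc.2.1
    exact hbc (by rw [hj, hj'])
  · intro s hs
    simp only [Finset.mem_filter] at hs ⊢
    refine ⟨hs.1, hs.2.1, ?_⟩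
    have : 3 * s ≤ K * s := Nat.mul_le_mul_right s hK
    omega

theorem ent_ok (K N : ℕ) (hK : 3 ≤ K) (hN : N ≠ 0) (hNp : ∀ p : ℕ, p.Prime → p ∣ N → p < K)
    (t : Ent) (h : chk K N t = true) (n q : ℕ) (h1 : t.1 ≤ q) (h2 : q < t.2.1) (hqn : q ≤ n) :
    bq K n q + gn t ≤ g K n q := by
  classical
  have _ := hN
  rcases Nat.lt_or_ge t.2.2.2.length t.2.2.1.length with hlen | hlen
  swap
  · have : gn t = 0 := Nat.sub_eq_zero_of_le hlen
    rw [this, Nat.add_zero]
    exact base_ok K n q hK hqn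
  obtain ⟨lo, hi, E, D⟩ := t
  simp only at h1 h2 hlen
  rw [chk, Bool.and_eq_true] at h
  obtain ⟨hinc, hchk⟩ := h
  simp only at hinc hchk
  obtain ⟨hpos, hnd⟩ := inc'_spec E 0 hinc
  have hE : ∀ e ∈ E, N % e = 0 ∧ 3 * e ≤ lo ∧ hi ≤ K * e ∧ cnt (lo, hi, E, D) e (K - 2) ≤ 1 :=
    fun e he => chkE_spec K N _ e (chkL_spec K N _ E hchk e he)
  set B : Finset ℕ := (W K n).filter (fun s => s ≤ q ∧ q < 3 * s) with hB
  set A : Finset ℕ := (B \ D.toFinset) ∪ E.toFinset with hA
  have memA : ∀ x, x ∈ A ↔ ((x ∈ W K n ∧ x ≤ q ∧ q < 3 * x) ∧ x ∉ D) ∨ x ∈ E := by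
    intro x
    simp [hA, hB, Finset.mem_union, Finset.mem_sdiff, Finset.mem_filter, List.mem_toFinset]
  have hsub : A ⊆ (W K n).filter (fun s => s ≤ q ∧ q < K * s) := by
    intro x hx
    rw [Finset.mem_filter]
    rcases (memA x).1 hx with ⟨⟨hx1, hx2, hx3⟩, -⟩ | hx
    · refine ⟨hx1, hx2, ?_⟩
      have : 3 * x ≤ K * x := Nat.mul_le_mul_right x hK
      omega
    · obtain ⟨e1, e2, e3, -⟩ := hE x hx
      have hx0 := hpos x hx
      refine ⟨mem_W.2 ⟨⟨by omega, by omega⟩, ?_⟩, by omega, by omega⟩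
      intro p hp hpx
      exact hNp p hp (hpx.trans (Nat.dvd_of_mod_eq_zero e1))
  have hdisj : Disjoint (B \ D.toFinset) E.toFinset := by
    rw [Finset.disjoint_left]
    intro x hx hx'
    rw [List.mem_toFinset] at hx'
    rw [Finset.mem_sdiff, hB, Finset.mem_filter] at hx
    have := (hE x hx').2.1
    omega
  have hcard : bq K n q + gn (lo, hi, E, D) ≤ A.card := by
    rw [hA, Finset.card_union_of_disjoint hdisj, List.toFinset_card_of_nodup hnd]
    have e1 : B.card - D.toFinset.card ≤ (B \ D.toFinset).card := Finset.le_card_sdiff _ _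
    have e2 : D.toFinset.card ≤ D.length := List.toFinset_card_le D
    have e3 : bq K n q = B.card := by
      unfold bq
      rw [hB]
    have e4 : gn (lo, hi, E, D) = E.length - D.length := rfl
    omega
  refine hcard.trans (card_le_mx ?_ hsub)
  have hpm : ∀ x ∈ A, pm (lo, hi, E, D) x = true := by
    intro x hx
    rw [pm, Bool.or_eq_true]
    rcases (memA x).1 hx with ⟨⟨hx1, hx2, hx3⟩, hx4⟩ | hx
    · left
      rw [Bool.and_eq_true, Bool.and_eq_true, Nat.blt_eq, Nat.blt_eq]
      refine ⟨by simp only; omega, by simp only; omega, ?_⟩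
      have : mem' x D ≠ true := fun hh => hx4 ((mem'_iff x D).1 hh)
      simpa using this
    · right
      exact (mem'_iff x E).2 hx
  have hA0 : ∀ x ∈ A, 0 < x ∧ x ≤ q := by
    intro x hx
    have := hsub hx
    rw [Finset.mem_filter] at this
    exact ⟨(mem_W.1 this.1).1.1, this.2.1⟩
  intro a ha b hb c hc hab hac hbc hdiv
  obtain ⟨⟨j, rfl⟩, ⟨j', rfl⟩⟩ := hdiv
  have two : ∀ i : ℕ, a ≠ a * i → 0 < a * i → 2 ≤ i := by
    intro i h1 h2
    have hi0 : i ≠ 0 := by rintro rfl; simp at h2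
    have hi1 : i ≠ 1 := by rintro rfl; simp at h1
    omega
  have hj2 := two j hab (hA0 _ hb).1
  have hj'2 := two j' hac (hA0 _ hc).1
  have hne : j ≠ j' := by rintro rfl; exact hbc rfl
  have hlt : ∀ (m i : ℕ), q < m * a → a * i ≤ q → i < m := by
    intro m i h1 h2
    by_contra h3
    have : a * m ≤ a * i := Nat.mul_le_mul_left a (by omega)
    rw [Nat.mul_comm a m] at this
    omega
  rcases (memA a).1 ha with ⟨⟨hx1, hx2, hx3⟩, -⟩ | hx
  · have := hlt 3 j hx3 (hA0 _ hb).2
    have := hlt 3 j' hx3 (hA0 _ hc).2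
    omega
  · obtain ⟨-, -, e3, e4⟩ := hE a hx
    have hjK := hlt K j (by omega) (hA0 _ hb).2
    have hj'K := hlt K j' (by omega) (hA0 _ hc).2
    have hpb : pm (lo, hi, E, D) (j * a) = true := by
      rw [Nat.mul_comm]
      exact hpm _ hb
    have hpc : pm (lo, hi, E, D) (j' * a) = true := by
      rw [Nat.mul_comm]
      exact hpm _ hc
    rcases Nat.lt_or_gt_of_ne hne with hjj | hjj
    · have := cnt_two _ a j j' hj2 hjj hpb hpc (K - 2) (by omega)
      omega
    · have := cnt_two _ a j' j hj'2 hjj hpc hpb (K - 2) (by omega)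
      omega

end Pool.Agent.N152.DD
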